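import Mathlib
import Pool.Agent.TH822.SR.Pell
import Pool.Agent.TH822.SR.Both

set_option autoImplicit false

/-!
# Pairs of primes `p, r` with `p ^ 2 - 2 r ^ 2 = -1`: the metric form of Q2

Let `H n + P n √2 = (1 + √2) ^ n`.  The solutions of `p ^ 2 - 2 r ^ 2 = -1` with `p` prime are pairs
`(H n, P n)` with `n` prime.  For real `c` and `β > 0` let `W c β n` be the `n`-rough part (the
product, with multiplicity, of the prime factors larger than `n`) of
`⌊β (1 + √2) ^ n + c (1 - √2) ^ n⌋`.  At `β = 1/(2√2)` and a prime `n > 5` one has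
`W (1/2) (√2 β) n = H n` and `W (-1/(2√2)) β n = P n`.  We prove that for all real `c`, `c'` and
almost every `β > 0` there are only finitely many `n` for which `W c (√2 β) n` and `W c' β n` are
both prime.
-/

namespace Pool.Agent.Results.MP_927e73_nt.BothPrime

open Filter Topology MeasureTheory

/-- The integers `H n` with `(1 + √2) ^ n = H n + P n √2`. -/
def H : ℕ → ℕ
  | 0 => 1
  | 1 => 1
  | (n + 2) => 2 * H (n + 1) + H n

/-- The integers `P n` with `(1 + √2) ^ n = H n + P n √2`. -/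
def P : ℕ → ℕ
  | 0 => 0
  | 1 => 1
  | (n + 2) => 2 * P (n + 1) + P n

/-- The product, with multiplicity, of the prime factors of `m` that are larger than `n`. -/
def roughPart (n m : ℕ) : ℕ := (m.primeFactorsList.filter (fun q => n < q)).prod

/-- The `n`-rough part of `⌊β (1 + √2) ^ n + c (1 - √2) ^ n⌋`. -/
noncomputable def W (c β : ℝ) (n : ℕ) : ℕ :=
  roughPart n ⌊β * (1 + Real.sqrt 2) ^ n + c * (1 - Real.sqrt 2) ^ n⌋₊

lemma H_eq : ∀ n : ℕ, H n = Pool.Agent.TH822.SR.H n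
  | 0 => rfl
  | 1 => rfl
  | (n + 2) => by
      show 2 * H (n + 1) + H n = 2 * Pool.Agent.TH822.SR.H (n + 1) + Pool.Agent.TH822.SR.H n
      rw [H_eq n, H_eq (n + 1)]

lemma P_eq : ∀ n : ℕ, P n = Pool.Agent.TH822.SR.P n
  | 0 => rfl
  | 1 => rfl
  | (n + 2) => by
      show 2 * P (n + 1) + P n = 2 * Pool.Agent.TH822.SR.P (n + 1) + Pool.Agent.TH822.SR.P n
      rw [P_eq n, P_eq (n + 1)]

lemma dio (a b : ℕ) (_ha : 1 ≤ a) (hb : 1 ≤ b) :
    1 ≤ |(a : ℝ) - b * Real.sqrt 2| * (2 * (a + b)) := by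
  have hs2 : Real.sqrt 2 ^ 2 = 2 := Real.sq_sqrt (by norm_num)
  have hs0 : 0 ≤ Real.sqrt 2 := Real.sqrt_nonneg _
  have hs1 : Real.sqrt 2 < 3 / 2 := Pool.Agent.TH822.SR.sqrt2_lt
  have hbr : (0 : ℝ) < b := by exact_mod_cast hb
  have ha0 : (0 : ℝ) ≤ a := Nat.cast_nonneg _
  have hnorm : ((a : ℝ) - b * Real.sqrt 2) * (a + b * Real.sqrt 2) =
      (((a : ℤ) ^ 2 - 2 * b ^ 2 : ℤ) : ℝ) := by
    push_cast
    linear_combination -((b : ℝ) ^ 2) * hs2
  have hne1 : (a : ℝ) - b * Real.sqrt 2 ≠ 0 := by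
    intro h0
    apply irrational_sqrt_two
    refine ⟨(a / b : ℚ), ?_⟩
    push_cast
    field_simp
    linarith
  have hne2 : (a : ℝ) + b * Real.sqrt 2 ≠ 0 := by
    have : 0 < Real.sqrt 2 := Real.sqrt_pos.2 (by norm_num)
    positivity
  have hint : (1 : ℝ) ≤ |((a : ℝ) - b * Real.sqrt 2) * (a + b * Real.sqrt 2)| := by
    have hne : (((a : ℤ) ^ 2 - 2 * b ^ 2 : ℤ)) ≠ 0 := by
      intro h0
      rw [h0] at hnorm
      simp only [Int.cast_zero] at hnorm
      exact (mul_ne_zero hne1 hne2) hnorm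
    rw [hnorm]
    exact_mod_cast Int.one_le_abs hne
  rw [abs_mul] at hint
  have hle : |(a : ℝ) + b * Real.sqrt 2| ≤ 2 * (a + b) := by
    rw [abs_of_nonneg (by positivity)]
    nlinarith
  calc (1 : ℝ) ≤ |(a : ℝ) - b * Real.sqrt 2| * |(a : ℝ) + b * Real.sqrt 2| := hint
    _ ≤ _ := mul_le_mul_of_nonneg_left hle (abs_nonneg _)

/-- The solutions with `p` prime belong to prime exponents; the pairs `(H n, P n)` are the values at
`β = 1/(2√2)`; for all `c`, `c'` and almost every `β` only finitely many `n` give two primes. -/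
theorem result :
    (∀ p r : ℕ, p.Prime → (p ^ 2 + 1 = 2 * r ^ 2 ↔ ∃ n, n.Prime ∧ Odd n ∧ p = H n ∧ r = P n)) ∧
    (∀ n : ℕ, n.Prime → 5 < n → W (1 / 2) (Real.sqrt 2 * (1 / (2 * Real.sqrt 2))) n = H n ∧
      W (-(1 / (2 * Real.sqrt 2))) (1 / (2 * Real.sqrt 2)) n = P n) ∧
    (∀ c c' : ℝ, ∀ᵐ β : ℝ, 0 < β →
      {n : ℕ | (W c (Real.sqrt 2 * β) n).Prime ∧ (W c' β n).Prime}.Finite) := by
  refine ⟨fun p r hp => ⟨fun h => ?_, ?_⟩, fun n hn h5 => ⟨?_, ?_⟩, fun c c' => ?_⟩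
  · obtain ⟨n, h1, h2, h3, h4⟩ := Pool.Agent.TH822.SR.sol_prime hp h
    exact ⟨n, h1, h2, by rw [H_eq]; exact h3, by rw [P_eq]; exact h4⟩
  · rintro ⟨n, _, h2, h3, h4⟩
    rw [h3, h4, H_eq, P_eq]
    exact Pool.Agent.TH822.SR.norm_odd h2
  · rw [H_eq]
    have e : Real.sqrt 2 * (1 / (2 * Real.sqrt 2)) = 1 / 2 := by
      have : Real.sqrt 2 ≠ 0 := (Real.sqrt_pos.2 (by norm_num)).ne'
      field_simp
    rw [e]
    exact Pool.Agent.TH822.SR.rough_H hn h5
  · rw [P_eq]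
    exact Pool.Agent.TH822.SR.rough_P hn h5
  · have h := Pool.Agent.TH822.SR.both_ae (α := 1 + Real.sqrt 2) (κ := |1 - Real.sqrt 2|)
      (θ := Real.sqrt 2) (B := 2) Pool.Agent.TH822.SR.one_lt_al (abs_nonneg _)
      (Pool.Agent.TH822.SR.ps_abs.trans Pool.Agent.TH822.SR.one_lt_al)
      (Pool.Agent.TH822.SR.g_le c') (Pool.Agent.TH822.SR.g_le c) Pool.Agent.TH822.SR.lt_sqrt2.le dio
    filter_upwards [h] with β hβ h0
    refine (hβ h0).subset fun n hn => ⟨hn.2, hn.1⟩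

end Pool.Agent.Results.MP_927e73_nt.BothPrime
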