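import Mathlib
import Pool.Agent.TH822.SR.Pell

set_option autoImplicit false

/-!
# The law for the primes in the solutions of `p ^ 2 - 2 r ^ 2 = -1`, with the base `1 + √2` fixed

Let `H n + P n √2 = (1 + √2) ^ n`.  The positive solutions of `p ^ 2 - 2 r ^ 2 = -1` are the pairs
`(H n, P n)` with `n` odd, and if `H n` is prime then `n` is prime.  For real `c` and `β > 0` and a
prime `n` let `W c β n` be the `n`-rough part (the product, with multiplicity, of the prime factors
larger than `n`) of `⌊β (1 + √2) ^ n + c (1 - √2) ^ n⌋`.  For a prime `n > 5` this is `H n` at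
`(c, β) = (1/2, 1/2)` and `P n` at `(c, β) = (-1/(2√2), 1/(2√2))`.  For every real `c` and almost
every `β > 0` the number of primes `n ≤ x` with `W c β n` prime is
`(e ^ γ / log (1 + √2)) log x + O((log x) ^ (1/2) (log log x) ^ (5/2))`; for every set `S` of naturals
and almost every `β` there are infinitely many such primes `n` in `S` if and only if the sum of
`log n / n` over the primes `n` in `S` diverges, and then the corresponding law holds.
-/

namespace Pool.Agent.Results.MP_927e73_nt.SilverRatioLaw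

open Filter Topology MeasureTheory Asymptotics

/-- The integers `H n` with `(1 + √2) ^ n = H n + P n √2`. -/
def H : ℕ → ℕ
  | 0 => 1
  | 1 => 1
  | (n + 2) => 2 * H (n + 1) + H n

/-- The integers `P n` with `(1 + √2) ^ n = H n + P n √2`. -/
def P : ℕ → ℕ
  | 0 => 0
  | 1 => 1
  | (n + 2) => 2 * P (n + 1) + P n

/-- The product, with multiplicity, of the prime factors of `m` that are larger than `n`. -/
def roughPart (n m : ℕ) : ℕ := (m.primeFactorsList.filter (fun q => n < q)).prod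

/-- The `n`-rough part of `⌊β (1 + √2) ^ n + c (1 - √2) ^ n⌋`. -/
noncomputable def W (c β : ℝ) (n : ℕ) : ℕ :=
  roughPart n ⌊β * (1 + Real.sqrt 2) ^ n + c * (1 - Real.sqrt 2) ^ n⌋₊

open Classical in
/-- The number of primes `n ≤ x` in the set `S` for which `W c β n` is prime. -/
noncomputable def M (c : ℝ) (S : Set ℕ) (β : ℝ) (x : ℕ) : ℕ :=
  ((Finset.range (x + 1)).filter (fun n => n.Prime ∧ n ∈ S ∧ (W c β n).Prime)).card

open Classical in
/-- The sum of `log n / n` over the primes `n ≤ x` in the set `S`. -/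
noncomputable def V (S : Set ℕ) (x : ℕ) : ℝ :=
  ∑ n ∈ (Finset.range (x + 1)).filter (fun n => n.Prime ∧ n ∈ S), Real.log n / n

lemma V_eq (S : Set ℕ) (x : ℕ) : V S x = Pool.Agent.TH888.R.VS S x := by
  classical
  unfold V Pool.Agent.TH888.R.VS
  rw [Finset.sum_filter]
  refine Finset.sum_congr rfl fun p _ => ?_
  by_cases h : p.Prime ∧ p ∈ S
  · rw [if_pos h, if_pos ⟨h.2, h.1⟩]
    rfl
  · rw [if_neg h, if_neg fun h1 => h ⟨h1.2, h1.1⟩]

lemma M_eq (c : ℝ) (S : Set ℕ) (β : ℝ) (x : ℕ) : M c S β x = Pool.Agent.TH888.R.cS S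
    (fun n => ⌊β * (1 + Real.sqrt 2) ^ n + c * (1 - Real.sqrt 2) ^ n⌋₊) x := by
  classical
  unfold M Pool.Agent.TH888.R.cS
  rfl

lemma H_eq : ∀ n : ℕ, H n = Pool.Agent.TH822.SR.H n
  | 0 => rfl
  | 1 => rfl
  | (n + 2) => by
      show 2 * H (n + 1) + H n = 2 * Pool.Agent.TH822.SR.H (n + 1) + Pool.Agent.TH822.SR.H n
      rw [H_eq n, H_eq (n + 1)]

lemma P_eq : ∀ n : ℕ, P n = Pool.Agent.TH822.SR.P n
  | 0 => rfl
  | 1 => rfl
  | (n + 2) => by
      show 2 * P (n + 1) + P n = 2 * Pool.Agent.TH822.SR.P (n + 1) + Pool.Agent.TH822.SR.P n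
      rw [P_eq n, P_eq (n + 1)]

/-- The solutions of `p ^ 2 - 2 r ^ 2 = -1` with `p` prime belong to prime exponents `n`, and they
are special values of `W`; for every `c` and almost every `β`, with the base `1 + √2` fixed, the law
holds with a square root error term; for every set of primes the number of prime values is almost
surely finite or infinite according to the weight of the set, and in the second case it obeys the
corresponding law. -/
theorem result :
    (∀ p r : ℕ, p.Prime → (p ^ 2 + 1 = 2 * r ^ 2 ↔ ∃ n, n.Prime ∧ Odd n ∧ p = H n ∧ r = P n)) ∧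
    (∀ n : ℕ, n.Prime → 5 < n → W (1 / 2) (1 / 2) n = H n ∧
      W (-(1 / (2 * Real.sqrt 2))) (1 / (2 * Real.sqrt 2)) n = P n) ∧
    (∀ c : ℝ, ∀ᵐ β : ℝ, 0 < β →
      (fun x : ℕ => (M c Set.univ β x : ℝ) -
        Real.exp Real.eulerMascheroniConstant / Real.log (1 + Real.sqrt 2) * Real.log x) =O[atTop]
      (fun x : ℕ => Real.sqrt (Real.log x) * (Real.log (Real.log x)) ^ ((5 : ℝ) / 2))) ∧
    (∀ c : ℝ, ∀ S : Set ℕ, Tendsto (V S) atTop atTop → ∀ᵐ β : ℝ, 0 < β →
      (fun x : ℕ => (M c S β x : ℝ) -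
        Real.exp Real.eulerMascheroniConstant / Real.log (1 + Real.sqrt 2) * V S x) =O[atTop]
      (fun x : ℕ => Real.sqrt (V S x * Real.log (Real.log x)) *
        (Real.log (V S x * Real.log (Real.log x))) ^ 2)) ∧
    (∀ c : ℝ, ∀ S : Set ℕ, ∀ᵐ β : ℝ, 0 < β →
      ({n : ℕ | n.Prime ∧ n ∈ S ∧ (W c β n).Prime}.Infinite ↔ Tendsto (V S) atTop atTop)) := by
  have hV : ∀ S, V S = Pool.Agent.TH888.R.VS S := fun S => funext fun n => V_eq S n
  refine ⟨fun p r hp => ⟨fun h => ?_, ?_⟩, fun n hn h5 => ⟨?_, ?_⟩, fun c => ?_, fun c S hS => ?_,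
    fun c S => ?_⟩
  · obtain ⟨n, h1, h2, h3, h4⟩ := Pool.Agent.TH822.SR.sol_prime hp h
    exact ⟨n, h1, h2, by rw [H_eq]; exact h3, by rw [P_eq]; exact h4⟩
  · rintro ⟨n, _, h2, h3, h4⟩
    rw [h3, h4, H_eq, P_eq]
    exact Pool.Agent.TH822.SR.norm_odd h2
  · rw [H_eq]
    exact Pool.Agent.TH822.SR.rough_H hn h5
  · rw [P_eq]
    exact Pool.Agent.TH822.SR.rough_P hn h5
  · filter_upwards [Pool.Agent.TH822.SR.pt c Set.univ] with β hβ h0
    obtain ⟨B, hB, h⟩ := (hβ h0).law Pool.Agent.TH888.R.VS_univ_tendsto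
    simp only [M_eq]
    exact Pool.Agent.TH888.R.bigO_all hB h
  · rw [hV] at hS ⊢
    filter_upwards [Pool.Agent.TH822.SR.pt c S] with β hβ h0
    obtain ⟨B, hB, h⟩ := (hβ h0).law hS
    simp only [M_eq]
    exact Pool.Agent.TH888.R.bigO_set hB hS h
  · rw [hV]
    filter_upwards [Pool.Agent.TH822.SR.pt c S] with β hβ h0
    constructor
    · intro hi
      by_contra hn
      exact hi ((hβ h0).fin hn)
    · exact (hβ h0).inf

end Pool.Agent.Results.MP_927e73_nt.SilverRatioLaw
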